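import Pool.Agent.H91.LQR

set_option autoImplicit false

open Matrix ComplexOrder H91.LQR in
theorem Pool.Agent.Results.MP_25d917_an.DecayBound.result :
    ∀ (n : ℕ) (A : Matrix (Fin n) (Fin n) ℂ), Aᴴ = -A → ∃ C : ℝ,
    ∀ (m : ℕ), m < n → ∀ (B : Matrix (Fin n) (Fin m) ℂ) (X : Matrix (Fin n) (Fin n) ℂ),
      X.PosDef → Aᴴ * X + X * A - X * B * Bᴴ * X + 1 = 0 →
      ∃ l ∈ spectrum ℂ (A - B * Bᴴ * X), -l.re ≤ C :=
  main
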